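import Pool.Agent.MP_f3836a_nt.GV.All

set_option autoImplicit false

namespace Pool.Agent.Results.MP_f3836a_nt.CurveV

open IsLocalRing Pool.Agent.MP_f3836a_nt.GP Pool.Agent.MP_f3836a_nt.PT

theorem result (k F : Type) [Field k] [NumberField k] [Field F] [Algebra k F]
    (hF : ∃ t : F, Transcendental k t ∧ FiniteDimensional (IntermediateField.adjoin k {t}) F)
    (hk : ∀ z : F, IsAlgebraic k z → ∃ c : k, algebraMap k F c = z)
    (u : ∀ P : Place k F, ResidueField P.V) (hne : ∀ P, u P ≠ 0)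
    (hfin : {P | u P ≠ 1}.Finite) (hN : ∏ᶠ P, Place.nm P (u P) = 1) :
    ∃ n : ℕ, 0 < n ∧ ∃ l : List (F × F), (∀ a ∈ l, a.1 ≠ 0 ∧ a.2 ≠ 0) ∧
      ∀ P, u P ^ n = (l.map fun a => tameW P.V a.1 a.2).prod :=
  Pool.Agent.MP_f3836a_nt.GV.finalV k F hF hk u hne hfin hN

end Pool.Agent.Results.MP_f3836a_nt.CurveV
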