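import Pool.Agent.MP_f3836a_nt.PK.Main3

set_option autoImplicit false

namespace Pool.Agent.Results.MP_f3836a_nt.FibresK1

open AlgebraicGeometry CategoryTheory Pool.Agent.MP_f3836a_nt.PT

theorem result (N : ℕ) (X : Scheme.{0}) (ι : X ⟶ PN N) [IsClosedImmersion ι] (Y : Set X)
    (hY : ∀ y ∈ Y, Reg y) (φ : ∀ C : X, X.residueField C) (hne : ∀ C, φ C ≠ 0)
    (hfin : {C | φ C ≠ 1}.Finite)
    (hsupp : ∀ C, φ C ≠ 1 → Order.height C = 1 ∧ ∃ y ∈ Y, y ⤳ C)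
    (hdiv : ∀ x : X, Order.height x = 0 → ∑ᶠ C, ordZ C x (φ C) = 0)
    (hc : ∀ c, (∀ y ∈ Y, Cob {y} c) → Cob Y c ∨ pair φ c = 0) :
    ∃ n : ℕ, 0 < n ∧ ∃ l : List (Σ y : X, X.residueField y × X.residueField y),
      (∀ a ∈ l, Order.height a.1 = 2 ∧ (∃ y ∈ Y, y ⤳ a.1) ∧ a.2.1 ≠ 0 ∧ a.2.2 ≠ 0) ∧
      ∀ C : X, Order.height C = 1 → φ C ^ n = (l.map fun a => bd a.1 C a.2.1 a.2.2).prod :=
  Pool.Agent.MP_f3836a_nt.PK.pFinal3 N X ι Y hY φ ⟨hne, hfin, hsupp, hdiv⟩ hc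

end Pool.Agent.Results.MP_f3836a_nt.FibresK1
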