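import Pool.Agent.MP_f3836a_nt.RG.All

set_option autoImplicit false

namespace Pool.Agent.Results.MP_f3836a_nt.K2Rank

open AlgebraicGeometry CategoryTheory Pool.Agent.MP_f3836a_nt.PT Pool.Agent.MP_f3836a_nt.RG

theorem result (N : ℕ) (X : Scheme.{0}) (ι : X ⟶ PN N) [IsClosedImmersion ι] [IsIntegral X]
    (hreg : ∀ z : X, IsRegularLocalRing (X.presheaf.stalk z)) (hdim : topologicalKrullDim X = 2)
    (η : X) (hη : ∀ z, η ⤳ z) (h0 : CharZero (X.residueField η))
    (D : ℕ) (ω : Fin D → KaehlerDifferential ℤ (X.residueField η)) (hind : LinearIndependent ℤ ω)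
    (hω : ∀ i (C : X), Order.height C = 1 → CharZero (X.residueField C) →
      RegAt (ev (hη C)).range (ω i)) :
    ∃ l : Fin D → List ((X.residueField η)ˣ × (X.residueField η)ˣ),
      LinearIndependent ℤ (fun i => ((l i).map sym).sum) ∧
      ∀ i (C : X), Order.height C = 1 → ((l i).map fun a => bd η C a.1 a.2).prod = 1 :=
  Pool.Agent.MP_f3836a_nt.GV.A.U.finalR N X ι hreg hdim η hη h0 D ω hind hω

end Pool.Agent.Results.MP_f3836a_nt.K2Rank
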